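import Pool.Agent.Q288.DGC.Family

set_option autoImplicit false

open Real Pool.Agent.Q288.DGC

/-!
The long-range discrete Gaussian chain is delocalised at every temperature, with the sharp order
`n^(α-2)` of the variance.
-/

namespace Pool.Agent.Results.MP_57c4e5_pr.SharpOrder

noncomputable section

lemma w_eq {α β : ℝ} (hα : 1 < α) {n : ℕ} (ψ : Conf n) :
    exp (-β * energy α ψ) = w (Bil hα n) β ψ := by
  unfold w
  rw [Bil_self]

lemma Z_eq {α β : ℝ} (hα : 1 < α) {n : ℕ} :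
    partitionFunction α β n = ∑' ψ : Conf n, w (Bil hα n) β ψ := by
  unfold partitionFunction
  exact tsum_congr fun ψ => w_eq hα ψ

lemma Z_pos {α β : ℝ} (hα : 1 < α) (hβ : 0 < β) (n : ℕ) : 0 < partitionFunction α β n := by
  rw [Z_eq hα]
  exact (summable_w hα hβ n).tsum_pos (fun ψ => (w_pos _ _ ψ).le) 0 (w_pos _ _ _)

lemma w_neg {α β : ℝ} (hα : 1 < α) {n : ℕ} (ψ : Conf n) :
    w (Bil hα n) β (-ψ) = w (Bil hα n) β ψ := by
  unfold w
  simp only [map_neg, AddMonoidHom.neg_apply, neg_neg]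

lemma mean_zero {α β : ℝ} (hα : 1 < α) (n : ℕ) :
    expect α β n (fun h => (h : ℝ)) = 0 := by
  unfold expect
  have h1 : ∑' ψ : Conf n, ((((ψ : ℤ → ℤ) 0 : ℤ) : ℝ)) * exp (-β * energy α ψ) =
      - ∑' ψ : Conf n, ((((ψ : ℤ → ℤ) 0 : ℤ) : ℝ)) * exp (-β * energy α ψ) := by
    conv_lhs => rw [← (Equiv.neg (Conf n)).tsum_eq]
    rw [← tsum_neg]
    apply tsum_congr
    intro ψ
    rw [Equiv.neg_apply, w_eq hα, w_eq hα, w_neg]
    simp
  have h2 : ∑' ψ : Conf n, ((((ψ : ℤ → ℤ) 0 : ℤ) : ℝ)) * exp (-β * energy α ψ) = 0 := by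
    linarith
  rw [h2, zero_div]

lemma variance_eq {α β : ℝ} (hα : 1 < α) (n : ℕ) :
    variance α β n = (∑' ψ : Conf n, (((ψ : ℤ → ℤ) 0 : ℝ)) ^ 2 * w (Bil hα n) β ψ) /
      partitionFunction α β n := by
  unfold variance
  rw [mean_zero hα]
  unfold expect
  rw [zero_pow (by norm_num), sub_zero]
  congr 1
  exact tsum_congr fun ψ => by rw [w_eq hα]

/-- The variance is positive. -/
lemma variance_pos {α β : ℝ} (hα : 1 < α) (hβ : 0 < β) (n : ℕ) : 0 < variance α β n := by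
  rw [variance_eq hα]
  apply div_pos _ (Z_pos hα hβ n)
  refine (summable_w2 hα hβ n).tsum_pos (fun ψ => mul_nonneg (sq_nonneg _) (w_pos _ _ ψ).le)
    (ind n 0) ?_
  apply mul_pos _ (w_pos _ _ _)
  have : ((ind n 0 : Conf n) : ℤ → ℤ) 0 = 1 := ht_ind n 0
  rw [this]
  norm_num

/-- The lower bound in terms of the height `k` of the staircase. -/
lemma variance_ge {a β : ℝ} (ha : 0 < a) (ha2 : 2 * a < 1) (hα : 1 < 2 * (a + 1)) (hβ : 0 < β)
    {n k l : ℕ} (hk : 1 ≤ k) (hl : 1 ≤ l) (h : 2 * l * k ≤ n + 1)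
    (hQ : (k : ℝ) * ((l : ℝ) ^ (-(2 * a)) * (k : ℝ) ^ (1 - 2 * a)) ≤ 1)
    (hQ2 : Kst (Cst a) (2 * a) β *
      ((k : ℝ) * ((l : ℝ) ^ (-(2 * a)) * (k : ℝ) ^ (1 - 2 * a))) ≤ 1 / 5) :
    (k : ℝ) ^ 2 / 16 ≤ variance (2 * (a + 1)) β n := by
  have : NeZero l := ⟨by omega⟩
  have hM := M2_le ha ha2 hα hβ hk hl h hQ hQ2
  have hq := quarter (Bil hα n) β (fam n k l) (Bil_symm hα) (summable_w hα hβ n) (ht n) k
    (ht_fam n k l) hM
  rw [variance_eq hα, le_div_iff₀ (Z_pos hα hβ n), Z_eq hα]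
  have h1 : ∑' x : Conf n, (if |(k : ℤ)| ≤ 2 * |ht n x| then (1 : ℝ) else 0) * w (Bil hα n) β x ≤
      (4 / (k : ℝ) ^ 2) * ∑' ψ : Conf n, (((ψ : ℤ → ℤ) 0 : ℝ)) ^ 2 * w (Bil hα n) β ψ := by
    rw [← tsum_mul_left]
    have hk' : (0 : ℝ) < k := by exact_mod_cast hk
    refine Summable.tsum_le_tsum (fun x => ?_) ?_ ((summable_w2 hα hβ n).mul_left _)
    · rw [← mul_assoc]
      apply mul_le_mul_of_nonneg_right _ (w_pos _ _ x).le
      split_ifs with hx
      · rw [div_mul_eq_mul_div, le_div_iff₀ (by positivity), one_mul]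
        have h2 : |(k : ℤ)| ≤ 2 * |(x : ℤ → ℤ) 0| := hx
        have h3 : (|(k : ℤ)| : ℤ) ^ 2 ≤ (2 * |(x : ℤ → ℤ) 0|) ^ 2 :=
          pow_le_pow_left₀ (abs_nonneg _) h2 2
        rw [mul_pow, sq_abs, sq_abs] at h3
        have h4 : ((k : ℝ)) ^ 2 ≤ 2 ^ 2 * (((x : ℤ → ℤ) 0 : ℤ) : ℝ) ^ 2 := by exact_mod_cast h3
        linarith
      · positivity
    · refine Summable.of_nonneg_of_le (fun x => ?_) (fun x => ?_) (summable_w hα hβ n)
      · apply mul_nonneg _ (w_pos _ _ x).le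
        split_ifs <;> norm_num
      · calc _ ≤ 1 * w (Bil hα n) β x := by
              apply mul_le_mul_of_nonneg_right _ (w_pos _ _ x).le
              split_ifs <;> norm_num
          _ = _ := one_mul _
  have h5 := hq.trans h1
  have hk' : (0 : ℝ) < (k : ℝ) ^ 2 := by
    have : (0 : ℝ) < k := by exact_mod_cast hk
    positivity
  have h6 := mul_le_mul_of_nonneg_left h5 hk'.le
  have h7 : (k : ℝ) ^ 2 * (4 / (k : ℝ) ^ 2 *
      ∑' ψ : Conf n, (((ψ : ℤ → ℤ) 0 : ℝ)) ^ 2 * w (Bil hα n) β ψ) =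
      4 * ∑' ψ : Conf n, (((ψ : ℤ → ℤ) 0 : ℝ)) ^ 2 * w (Bil hα n) β ψ := by
    field_simp
  rw [h7] at h6
  linarith

/-- Large boxes. -/
lemma large {a β : ℝ} (ha : 0 < a) (ha2 : 2 * a < 1) (hα : 1 < 2 * (a + 1)) (hβ : 0 < β) :
    ∃ c : ℝ, 0 < c ∧ ∃ n0 : ℕ, ∀ n : ℕ, n0 ≤ n →
      c * (n : ℝ) ^ (2 * a) ≤ variance (2 * (a + 1)) β n := by
  set K := Kst (Cst a) (2 * a) β with hK
  have hKp : 0 < K := Kst_pos (Cst_pos ha) ha2 hβ
  -- choose ε
  obtain ⟨ε, hε0, hε1, hε2, hε3⟩ : ∃ ε : ℝ, 0 < ε ∧ ε ≤ 1 / 4 ∧ 4 * ε ^ 2 ≤ 1 ∧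
      K * (4 * ε ^ 2) ≤ 1 / 5 := by
    refine ⟨min (1 / 4) (1 / (20 * K)), by positivity, min_le_left _ _, ?_, ?_⟩
    · have h1 : min (1 / 4) (1 / (20 * K)) ≤ 1 / 4 := min_le_left _ _
      have h2 : 0 < min (1 / 4) (1 / (20 * K)) := by positivity
      nlinarith
    · have h1 : min (1 / 4) (1 / (20 * K)) ≤ 1 / 4 := min_le_left _ _
      have h2 : 0 < min (1 / 4) (1 / (20 * K)) := by positivity
      have h3 : min (1 / 4) (1 / (20 * K)) ≤ 1 / (20 * K) := min_le_right _ _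
      have h4 : K * min (1 / 4) (1 / (20 * K)) ≤ 1 / 20 := by
        calc K * min (1 / 4) (1 / (20 * K)) ≤ K * (1 / (20 * K)) :=
              mul_le_mul_of_nonneg_left h3 hKp.le
          _ = 1 / 20 := by field_simp
      nlinarith
  refine ⟨ε ^ 2 / 64, by positivity, ?_⟩
  -- n0
  have htend : Filter.Tendsto (fun n : ℕ => ε * ((n : ℝ) + 1) ^ a) Filter.atTop Filter.atTop := by
    apply Filter.Tendsto.const_mul_atTop hε0
    exact (tendsto_rpow_atTop ha).comp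
      (Filter.tendsto_atTop_add_const_right _ _ tendsto_natCast_atTop_atTop)
  obtain ⟨n0, hn0⟩ := Filter.eventually_atTop.1 (htend.eventually_ge_atTop 1)
  refine ⟨n0, fun n hn => ?_⟩
  have hx := hn0 n hn
  set N : ℝ := (n : ℝ) + 1 with hN
  have hN1 : 1 ≤ N := by
    have : (0 : ℝ) ≤ n := Nat.cast_nonneg n
    linarith
  set x := ε * N ^ a with hxd
  set k := ⌊x⌋₊ with hk
  have hk1 : 1 ≤ k := Nat.one_le_floor_iff x |>.2 hx
  have hkx : (k : ℝ) ≤ x := Nat.floor_le (by linarith)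
  have hkx2 : x < k + 1 := Nat.lt_floor_add_one x
  have hk1' : (1 : ℝ) ≤ k := by exact_mod_cast hk1
  have hxk : x / 2 ≤ k := by linarith
  have hNa : N ^ a ≤ N := by
    calc N ^ a ≤ N ^ (1 : ℝ) := Real.rpow_le_rpow_of_exponent_le hN1 (by linarith)
      _ = N := Real.rpow_one N
  have h4k : 4 * (k : ℝ) ≤ N := by
    have : ε * N ^ a ≤ 1 / 4 * N := mul_le_mul hε1 hNa (by positivity) (by norm_num)
    linarith
  set l := (n + 1) / (2 * k) with hl
  have h4k' : 4 * k ≤ n + 1 := by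
    have : (4 * (k : ℝ)) ≤ ((n + 1 : ℕ) : ℝ) := by push_cast; exact h4k
    exact_mod_cast this
  have hl1 : 1 ≤ l := by
    rw [hl, Nat.le_div_iff_mul_le (by omega)]
    omega
  have hlk : 2 * l * k ≤ n + 1 := by
    have := Nat.div_mul_le_self (n + 1) (2 * k)
    calc 2 * l * k = (n + 1) / (2 * k) * (2 * k) := by rw [hl]; ring
      _ ≤ n + 1 := this
  have hlk2 : N / 4 ≤ (k : ℝ) * l := by
    have h1 := Nat.div_add_mod (n + 1) (2 * k)
    have h2 := Nat.mod_lt (n + 1) (show 0 < 2 * k by omega)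
    have h3 : n + 1 ≤ 4 * (k * l) := by
      have h5 : 2 * k ≤ 2 * k * l := Nat.le_mul_of_pos_right _ hl1
      have h6 : 2 * k * l = 2 * (k * l) := by ring
      rw [← hl] at h1
      omega
    have h4 : ((n + 1 : ℕ) : ℝ) ≤ ((4 * (k * l) : ℕ) : ℝ) := by exact_mod_cast h3
    push_cast at h4
    linarith
  have hl' : (0 : ℝ) < l := by exact_mod_cast hl1
  have hk' : (0 : ℝ) < k := by linarith
  -- the parameter
  have hQ : (k : ℝ) * ((l : ℝ) ^ (-(2 * a)) * (k : ℝ) ^ (1 - 2 * a)) ≤ 4 * ε ^ 2 := by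
    have e1 : (k : ℝ) ^ (1 - 2 * a) = k * (k : ℝ) ^ (-(2 * a)) := by
      rw [sub_eq_add_neg, Real.rpow_add hk', Real.rpow_one]
    have e2 : (k : ℝ) * ((l : ℝ) ^ (-(2 * a)) * (k : ℝ) ^ (1 - 2 * a)) =
        (k : ℝ) ^ 2 * ((k : ℝ) * l) ^ (-(2 * a)) := by
      rw [e1, Real.mul_rpow hk'.le hl'.le]
      ring
    have e3 : ((k : ℝ) * l) ^ (-(2 * a)) ≤ (N / 4) ^ (-(2 * a)) :=
      Real.rpow_le_rpow_of_nonpos (by linarith) hlk2 (by linarith)
    have e4 : (N / 4) ^ (-(2 * a)) = N ^ (-(2 * a)) * 4 ^ (2 * a) := by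
      rw [Real.div_rpow (by linarith) (by norm_num), Real.rpow_neg (by norm_num : (0 : ℝ) ≤ 4)]
      field_simp
    have e5 : (4 : ℝ) ^ (2 * a) ≤ 4 := by
      calc (4 : ℝ) ^ (2 * a) ≤ 4 ^ (1 : ℝ) :=
            Real.rpow_le_rpow_of_exponent_le (by norm_num) ha2.le
        _ = 4 := Real.rpow_one 4
    have e6 : (k : ℝ) ^ 2 ≤ ε ^ 2 * N ^ (2 * a) := by
      have : (k : ℝ) ^ 2 ≤ x ^ 2 := pow_le_pow_left₀ hk'.le hkx 2
      refine this.trans (le_of_eq ?_)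
      rw [hxd, mul_pow, ← Real.rpow_natCast (N ^ a) 2, ← Real.rpow_mul (by linarith)]
      congr 2
      push_cast
      ring
    have e7 : N ^ (2 * a) * N ^ (-(2 * a)) = 1 := by
      rw [← Real.rpow_add (by linarith)]
      simp
    have e8 : 0 < N ^ (-(2 * a)) := Real.rpow_pos_of_pos (by linarith) _
    rw [e2]
    calc (k : ℝ) ^ 2 * ((k : ℝ) * l) ^ (-(2 * a)) ≤
          (ε ^ 2 * N ^ (2 * a)) * (N ^ (-(2 * a)) * 4) := by
          apply mul_le_mul e6 _ (by positivity) (by positivity)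
          rw [e4] at e3
          exact e3.trans (mul_le_mul_of_nonneg_left e5 e8.le)
      _ = 4 * ε ^ 2 * (N ^ (2 * a) * N ^ (-(2 * a))) := by ring
      _ = 4 * ε ^ 2 := by rw [e7, mul_one]
  have hmain := variance_ge ha ha2 hα hβ hk1 hl1 hlk (hQ.trans hε2)
    ((mul_le_mul_of_nonneg_left hQ hKp.le).trans hε3)
  refine le_trans ?_ hmain
  have e1 : (n : ℝ) ^ (2 * a) ≤ N ^ (2 * a) :=
    Real.rpow_le_rpow (Nat.cast_nonneg n) (by rw [hN]; linarith) (by linarith)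
  have e2 : N ^ (2 * a) = (N ^ a) ^ 2 := by
    rw [← Real.rpow_natCast (N ^ a) 2, ← Real.rpow_mul (by linarith)]
    congr 1
    push_cast
    ring
  have e3 : (x / 2) ^ 2 ≤ (k : ℝ) ^ 2 := pow_le_pow_left₀ (by linarith) hxk 2
  calc ε ^ 2 / 64 * (n : ℝ) ^ (2 * a) ≤ ε ^ 2 / 64 * N ^ (2 * a) :=
        mul_le_mul_of_nonneg_left e1 (by positivity)
    _ = (x / 2) ^ 2 / 16 := by rw [e2, hxd]; ring
    _ ≤ (k : ℝ) ^ 2 / 16 := by linarith

/-- **Delocalisation at all temperatures with the sharp order.** For every `α ∈ (2, 3)` and every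
`β > 0` there is `c > 0` such that the variance of `ψ_0` in the discrete Gaussian chain on
`{-n, …, n}` with zero boundary condition is at least `c n^(α - 2)` for every `n ≥ 1`. -/
theorem result (α β : ℝ) (h2 : 2 < α) (h3 : α < 3) (hβ : 0 < β) :
    (∀ n : ℕ, Summable fun ψ : Conf n => exp (-β * energy α ψ)) ∧
    ∃ c : ℝ, 0 < c ∧ ∀ n : ℕ, 1 ≤ n → c * (n : ℝ) ^ (α - 2) ≤ variance α β n := by
  have hα : 1 < α := by linarith
  refine ⟨fun n => (summable_w hα hβ n).congr fun ψ => (w_eq hα ψ).symm, ?_⟩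
  obtain ⟨a, ha⟩ : ∃ a : ℝ, a = α / 2 - 1 := ⟨_, rfl⟩
  have ha0 : 0 < a := by linarith
  have ha2 : 2 * a < 1 := by linarith
  have hαa : α = 2 * (a + 1) := by linarith
  have hex : α - 2 = 2 * a := by linarith
  rw [hex]
  subst hαa
  obtain ⟨c, hc, n0, hn0⟩ := large ha0 ha2 hα hβ
  -- small boxes
  have hsmall : ∀ m : ℕ, ∃ c' : ℝ, 0 < c' ∧ ∀ n : ℕ, 1 ≤ n → n < m →
      c' * (n : ℝ) ^ (2 * a) ≤ variance (2 * (a + 1)) β n := by
    intro m
    induction m with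
    | zero => exact ⟨1, one_pos, fun n _ hn => absurd hn (Nat.not_lt_zero n)⟩
    | succ m ih =>
      obtain ⟨c', hc', h⟩ := ih
      have hv := variance_pos hα hβ m
      have hp : 0 < ((m : ℝ) + 1) ^ (2 * a) := by positivity
      refine ⟨min c' (variance (2 * (a + 1)) β m / ((m : ℝ) + 1) ^ (2 * a)),
        lt_min hc' (div_pos hv hp), fun n hn1 hn => ?_⟩
      rcases Nat.lt_succ_iff_lt_or_eq.1 hn with hlt | heq
      · exact (mul_le_mul_of_nonneg_right (min_le_left _ _) (by positivity)).trans (h n hn1 hlt)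
      · subst heq
        calc min c' (variance (2 * (a + 1)) β n / ((n : ℝ) + 1) ^ (2 * a)) * (n : ℝ) ^ (2 * a)
            ≤ variance (2 * (a + 1)) β n / ((n : ℝ) + 1) ^ (2 * a) * ((n : ℝ) + 1) ^ (2 * a) := by
              apply mul_le_mul (min_le_right _ _) _ (by positivity) (by positivity)
              exact Real.rpow_le_rpow (Nat.cast_nonneg n) (by linarith) (by linarith)
          _ = _ := div_mul_cancel₀ _ hp.ne'
  obtain ⟨c', hc', h'⟩ := hsmall n0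
  refine ⟨min c c', lt_min hc hc', fun n hn => ?_⟩
  rcases lt_or_ge n n0 with hlt | hge
  · exact (mul_le_mul_of_nonneg_right (min_le_right _ _) (by positivity)).trans (h' n hn hlt)
  · exact (mul_le_mul_of_nonneg_right (min_le_left _ _) (by positivity)).trans (hn0 n hge)

end

end Pool.Agent.Results.MP_57c4e5_pr.SharpOrder
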